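import Pool.Agent.H55.FFM.TP

/-!
# Row LEV: the levels of a valuation
-/

set_option autoImplicit false

namespace Pool.Agent.H59.FFM

open Pool.Agent.H55.FFM

/-- the elements of valuation at least `m` -/
def lev {k F S : Type} [Field k] [Field F] [Algebra k F] {v : S → F → ℤ} (h : Vs k v) (s : S)
    (m : ℤ) : Submodule k F where
  carrier := {a | a = 0 ∨ m ≤ v s a}
  add_mem' := by
    intro a b ha hb
    rcases ha with rfl | ha
    · rw [zero_add]; exact hb
    rcases hb with rfl | hb
    · rw [add_zero]; exact Or.inr ha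
    by_cases ha0 : a = 0
    · rw [ha0, zero_add]; exact Or.inr hb
    by_cases hb0 : b = 0
    · rw [hb0, add_zero]; exact Or.inr ha
    by_cases hab : a + b = 0
    · exact Or.inl hab
    · exact Or.inr ((le_min ha hb).trans (h.add s a b ha0 hb0 hab))
  zero_mem' := Or.inl rfl
  smul_mem' := by
    intro c a ha
    rcases ha with rfl | ha
    · rw [smul_zero]; exact Or.inl rfl
    by_cases hc : c = 0
    · rw [hc, zero_smul]; exact Or.inl rfl
    by_cases ha0 : a = 0
    · rw [ha0, smul_zero]; exact Or.inl rfl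
    right
    have hc' : algebraMap k F c ≠ 0 := by simpa using hc
    rw [Algebra.smul_def, h.mul s _ _ hc' ha0, h.cst s c hc, zero_add]
    exact ha

theorem mem_lev {k F S : Type} [Field k] [Field F] [Algebra k F] {v : S → F → ℤ} (h : Vs k v)
    (s : S) (m : ℤ) (a : F) : a ∈ lev h s m ↔ a = 0 ∨ m ≤ v s a := Iff.rfl

theorem pf_LEV : T_LEV := by
  intro k F S _ _ _ v h
  refine ⟨lev h, fun s m a => Iff.rfl, ?_⟩
  intro U s m hU
  by_cases hle : U ⊓ lev h s m ≤ U ⊓ lev h s (m + 1)
  · have := Submodule.finrank_mono hle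
    omega
  obtain ⟨a0, ha0, ha0'⟩ := Set.not_subset.1 hle
  obtain ⟨hU0, hl0⟩ := Submodule.mem_inf.1 (show a0 ∈ U ⊓ lev h s m from ha0)
  have hn0 : a0 ∉ lev h s (m + 1) := fun h' => ha0' (Submodule.mem_inf.2 ⟨hU0, h'⟩)
  rw [mem_lev] at hn0 hl0
  push Not at hn0
  obtain ⟨hne, hlt⟩ := hn0
  have hm : v s a0 = m := by
    rcases hl0 with h' | h'
    · exact absurd h' hne
    · omega
  have hsub : U ⊓ lev h s m ≤ (U ⊓ lev h s (m + 1)) ⊔ Submodule.span k {a0} := by
    intro a ha
    obtain ⟨haU, hal⟩ := Submodule.mem_inf.1 ha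
    rw [mem_lev] at hal
    by_cases ha00 : a = 0
    · rw [ha00]; exact Submodule.zero_mem _
    have hva : m ≤ v s a := by
      rcases hal with h' | h'
      · exact absurd h' ha00
      · exact h'
    have hb0 : a / a0 ≠ 0 := div_ne_zero ha00 hne
    have hvb : 0 ≤ v s (a / a0) := by
      have h1 := h.mul s (a / a0) a0 hb0 hne
      rw [div_mul_cancel₀ a hne] at h1
      omega
    obtain ⟨c, hc⟩ := h.res s (a / a0) hb0 hvb
    have hdec : a = (a - c • a0) + c • a0 := by ring
    rw [hdec]
    refine Submodule.add_mem_sup ?_ (Submodule.smul_mem _ c (Submodule.mem_span_singleton_self a0))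
    refine Submodule.mem_inf.2 ⟨Submodule.sub_mem _ haU (Submodule.smul_mem _ c hU0), ?_⟩
    rw [mem_lev]
    by_cases hz : a / a0 - algebraMap k F c = 0
    · left
      rw [Algebra.smul_def, ← sub_eq_zero.1 hz, div_mul_cancel₀ a hne, sub_self]
    · right
      have h1 : 0 < v s (a / a0 - algebraMap k F c) := by
        rcases hc with h' | h'
        · exact absurd (sub_eq_zero.2 h') hz
        · exact h'
      have h2 := h.mul s _ a0 hz hne
      have h3 : (a / a0 - algebraMap k F c) * a0 = a - c • a0 := by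
        rw [sub_mul, div_mul_cancel₀ a hne, Algebra.smul_def]
      rw [h3] at h2
      omega
  have hfin : FiniteDimensional k (U ⊓ lev h s (m + 1) : Submodule k F) :=
    Submodule.finiteDimensional_inf_left U _
  have h1 := Submodule.finrank_mono hsub
  have h2 := Submodule.finrank_add_le_finrank_add_finrank (U ⊓ lev h s (m + 1))
    (Submodule.span k {a0})
  have h3 := finrank_span_singleton (K := k) hne
  omega

end Pool.Agent.H59.FFM
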