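import Pool.Agent.H55.FFM.TD
import Pool.Agent.H99.HIT.RTD

/-!
# Row BSF: a curve of bounded degree is contained in a surface of bounded degree
-/

set_option autoImplicit false

open MvPolynomial
open Pool.Agent.H18.HIT
open Pool.Agent.H8.TD (lc Wsp K3 xx ph)
open Pool.Agent.H55.FFM

namespace Pool.Agent.H59.FFM

theorem pf_BSF (hCLR : T_CLR) : T_BSF := by
  intro D
  refine ⟨6 * D + 6, ?_⟩
  intro k F _ _ _ _ _ π hCv hdeg
  have hinf : Infinite k := IsAlgClosed.instInfinite
  obtain ⟨x, hx⟩ : ∃ x : Fin 3 → F, x = fun i => π (X i) := ⟨_, rfl⟩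
  rw [← hx] at hdeg
  have hπ : π = aeval x := by
    rw [hx]; exact aeval_unique π
  have hrange : (π.range : Set F) ⊆ IntermediateField.adjoin k (Set.range x) := by
    rw [hπ, ← Algebra.adjoin_range_eq_range_aeval]
    exact IntermediateField.algebra_adjoin_le_adjoin k _
  have htop : IntermediateField.adjoin k (Set.range x) = ⊤ := by
    rw [eq_top_iff, ← hCv.top, IntermediateField.adjoin_le_iff]
    exact hrange
  have htra : ∃ i, Transcendental k (x i) := by
    by_contra hcon
    push Not at hcon
    have hint : ∀ y ∈ Set.range x, IsIntegral k y := by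
      rintro _ ⟨i, rfl⟩
      have := hcon i
      rw [Transcendental, not_not] at this
      exact this.isIntegral
    have halg := IntermediateField.isAlgebraic_adjoin hint
    obtain ⟨y, hy⟩ := hCv.tra
    apply hy
    have hym : y ∈ IntermediateField.adjoin k (Set.range x) := by rw [htop]; trivial
    have h1 := halg.isAlgebraic (⟨y, hym⟩ : IntermediateField.adjoin k (Set.range x))
    exact (isAlgebraic_algebraMap_iff (algebraMap
      (IntermediateField.adjoin k (Set.range x)) F).injective).2 h1
  obtain ⟨i0, hi0⟩ := htra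
  have hlc : lc (Pi.single i0 (1 : k)) x = x i0 := by
    unfold lc
    rw [Finset.sum_eq_single i0]
    · simp
    · intro j _ hj
      simp [Pi.single_eq_of_ne hj]
    · intro h; exact absurd (Finset.mem_univ _) h
  have hW := hCLR k k F 3 3 x x D D (6 * D + 6) 0 hCv.fin (by rw [Set.union_self]; exact htop)
    hdeg hdeg ⟨Pi.single i0 1, by rw [hlc]; exact hi0⟩
  -- the evaluation map
  obtain ⟨hRfin, hRdim⟩ := Pool.Agent.H99.HIT.pf_RTD 3 k (6 * D + 6)
  let L : restrictTotalDegree (Fin 3) k (6 * D + 6) →ₗ[k] F :=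
    π.toLinearMap.domRestrict (restrictTotalDegree (Fin 3) k (6 * D + 6))
  have hLr : LinearMap.range L = Wsp k x x (6 * D + 6) 0 := by
    apply le_antisymm
    · rintro _ ⟨⟨p, hp⟩, rfl⟩
      have hp' := (mem_restrictTotalDegree (Fin 3) (6 * D + 6) p).1 hp
      change π p ∈ _
      rw [hπ, aeval_def, eval₂_eq']
      refine Submodule.sum_mem _ fun d hd => ?_
      rw [← Algebra.smul_def]
      refine Submodule.smul_mem _ _ (Submodule.subset_span ⟨fun i => d i, fun _ => 0, ?_, ?_, ?_⟩)
      · have h1 := le_totalDegree hd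
        rw [Finsupp.sum_fintype _ _ (fun _ => rfl)] at h1
        exact h1.trans hp'
      · simp
      · simp
    · unfold Wsp
      rw [Submodule.span_le]
      rintro _ ⟨α, β, hα, hβ, rfl⟩
      have hβ0 : ∀ i, β i = 0 := by
        intro i
        have := Finset.sum_eq_zero_iff.1 (Nat.le_zero.1 hβ) i (Finset.mem_univ i)
        exact this
      refine ⟨⟨monomial (Finsupp.equivFunOnFinite.symm α) (1 : k), ?_⟩, ?_⟩
      · rw [mem_restrictTotalDegree, totalDegree_monomial _ (one_ne_zero)]
        rw [Finsupp.sum_fintype _ _ (fun _ => rfl)]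
        simpa using hα
      · change π (monomial (Finsupp.equivFunOnFinite.symm α) (1 : k)) = _
        rw [hπ, aeval_monomial, map_one, one_mul, Finsupp.prod_fintype _ _ (fun i => pow_zero _)]
        simp [hβ0]
  have hrk := LinearMap.finrank_range_add_finrank_ker L
  rw [hLr] at hrk
  have hchoose : 6 * (6 * D + 6 + 3).choose 3 =
      (6 * D + 6 + 1) * (6 * D + 6 + 2) * (6 * D + 6 + 3) := by
    have h1 := Nat.descFactorial_eq_factorial_mul_choose (6 * D + 6 + 3) 3
    have h2 : Nat.factorial 3 = 6 := rfl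
    rw [h2] at h1
    rw [← h1]
    simp only [Nat.descFactorial_succ, Nat.descFactorial_zero]
    have e1 : 6 * D + 6 + 3 - 2 = 6 * D + 6 + 1 := by omega
    have e2 : 6 * D + 6 + 3 - 1 = 6 * D + 6 + 2 := by omega
    rw [e1, e2, Nat.sub_zero]
    ring
  have hker : 0 < Module.finrank k (LinearMap.ker L) := by
    by_contra hc
    have h0 : Module.finrank k (LinearMap.ker L) = 0 := by omega
    rw [h0, hRdim] at hrk
    have h3 : (6 * D + 6 + 3).choose 3 ≤ (6 * D + 6) * D + (0 + 1) * D := by omega
    nlinarith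
  have hne : LinearMap.ker L ≠ ⊥ := by
    intro h
    rw [h, finrank_bot] at hker
    exact lt_irrefl _ hker
  obtain ⟨⟨p, hp⟩, hpk, hp0⟩ := Submodule.exists_mem_ne_zero_of_ne_bot hne
  refine ⟨p, fun h => hp0 (Subtype.ext h), LinearMap.mem_ker.1 hpk, ?_⟩
  exact (mem_restrictTotalDegree (Fin 3) (6 * D + 6) p).1 hp

end Pool.Agent.H59.FFM
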