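import Pool.Agent.H55.FFM.TP

/-!
# Row ONE: `J` has small degree or is a unit
-/

set_option autoImplicit false

namespace Pool.Agent.H59.FFM

open Pool.Agent.H55.FFM

section
variable {k F S : Type} [Field k] [Field F] [Algebra k F] {v : S → F → ℤ}

theorem vs_one (h : Vs k v) (s : S) : v s 1 = 0 := by
  have := h.cst s 1 one_ne_zero
  rwa [map_one] at this

theorem vs_pow (h : Vs k v) (s : S) {a : F} (ha : a ≠ 0) (n : ℕ) :
    v s (a ^ n) = n * v s a := by
  induction n with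
  | zero => rw [pow_zero, vs_one h]; simp
  | succ n ih =>
    rw [pow_succ, h.mul s _ _ (pow_ne_zero n ha) ha, ih]
    push_cast; ring

theorem vs_inv (h : Vs k v) (s : S) {a : F} (ha : a ≠ 0) : v s a⁻¹ = - v s a := by
  have h1 := h.mul s a a⁻¹ ha (inv_ne_zero ha)
  rw [mul_inv_cancel₀ ha, vs_one h] at h1
  omega

end

theorem perm_sq {S : Type} [Fintype S] (hS : Fintype.card S = 2) (σ : Equiv.Perm S) (s : S) :
    σ (σ s) = s := by
  classical
  have h1 : σ ^ Fintype.card (Equiv.Perm S) = 1 := pow_card_eq_one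
  rw [Fintype.card_perm, hS] at h1
  have h2 : (σ ^ 2) s = s := by
    have h3 : (Nat.factorial 2) = 2 := rfl
    rw [h3] at h1
    rw [h1]; rfl
  rw [pow_two] at h2
  exact h2

theorem pf_ONE (hPLA : T_PLA) (hINQ : T_INQ) (hCSZ : T_CSZ) (hDGP : T_DGP) (hPRM : T_PRM) :
    T_ONE := by
  intro k F _ _ _ _ _ R τ E J hCv hτ hE hE2 hJ hJ0 htr
  obtain ⟨S, iS, v, hPD⟩ := hPLA k F R hCv
  have hVs : Vs k v := hPD.toVs
  obtain ⟨hne, hconst⟩ := hCSZ k F R S v hCv hPD
  have hinq := hINQ k F R S v τ E J hCv hPD hτ hE hE2 hJ hJ0 htr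
  have hJR : (⟨J, hJ⟩ : R) ≠ 0 := fun h => hJ0 (congrArg Subtype.val h)
  obtain ⟨hfin, hlen⟩ := hPD.len ⟨J, hJ⟩ hJR
  have hlen0 : (0 : ℤ) ≤ -∑ s, v s J := by
    rw [← hlen]; exact Int.natCast_nonneg _
  have hcard1 : 1 ≤ Fintype.card S := Fintype.card_pos
  have hE1 : (1 : ℤ) ≤ (E : ℤ) - 1 := by
    have : (2 : ℤ) ≤ (E : ℤ) := by exact_mod_cast hE2
    omega
  have hcard2 : Fintype.card S ≤ 2 := by
    by_contra hc
    push Not at hc
    have h1 : (2 - (Fintype.card S : ℤ)) ≤ -1 := by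
      have : (3 : ℤ) ≤ (Fintype.card S : ℤ) := by exact_mod_cast hc
      omega
    have h2 : (2 - (Fintype.card S : ℤ)) * ((E : ℤ) - 1) ≤ -1 * ((E : ℤ) - 1) :=
      mul_le_mul_of_nonneg_right h1 (by omega)
    omega
  rcases Nat.lt_or_ge (Fintype.card S) 2 with hlt | hge
  · -- one place
    have hc1 : Fintype.card S = 1 := by omega
    left
    obtain ⟨s0, hs0⟩ := Fintype.card_eq_one_iff.1 hc1
    have huniv : (Finset.univ : Finset S) = {s0} := by
      ext s; simp [hs0 s]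
    have hdg := hDGP k F R S v hCv hPD J hJ hJ0
    rw [huniv, Finset.sum_singleton] at hdg
    rw [huniv, Finset.sum_singleton, hc1] at hinq
    rw [huniv, Finset.sum_singleton] at hlen0
    have h1 : (dg k {J} : ℤ) ≤ (E : ℤ) - 1 := by
      rw [hdg, max_eq_right hlen0]
      push_cast at hinq
      linarith
    omega
  · -- two places
    have hc2 : Fintype.card S = 2 := by omega
    right
    have hz : (-∑ s, v s J) = 0 := by
      rw [hc2] at hinq
      push_cast at hinq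
      linarith
    have hfr : Module.finrank k (R ⧸ Ideal.span {(⟨J, hJ⟩ : R)}) = 0 := by
      have h1 : (Module.finrank k (R ⧸ Ideal.span {(⟨J, hJ⟩ : R)}) : ℤ) = 0 := by
        rw [hlen]; exact hz
      exact_mod_cast h1
    have hsub : Subsingleton (R ⧸ Ideal.span {(⟨J, hJ⟩ : R)}) :=
      Module.finrank_zero_iff.1 hfr
    have htop : Ideal.span {(⟨J, hJ⟩ : R)} = ⊤ := Ideal.Quotient.subsingleton_iff.1 hsub
    have hunit : IsUnit (⟨J, hJ⟩ : R) := Ideal.span_singleton_eq_top.1 htop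
    obtain ⟨u, hu⟩ := hunit.exists_right_inv
    have hu' : J * (u : F) = 1 := congrArg Subtype.val hu
    have hinv : J⁻¹ = (u : F) := inv_eq_of_mul_eq_one_right hu'
    have hinvR : J⁻¹ ∈ R := by rw [hinv]; exact u.2
    refine ⟨hinvR, ?_⟩
    obtain ⟨σ, hσ⟩ := hPRM k F R S v τ E hCv hPD hτ hE (by omega)
    have hτJ0 : τ J ≠ 0 := (map_ne_zero τ).2 hJ0
    have hττJ0 : τ (τ J) ≠ 0 := (map_ne_zero τ).2 hτJ0
    have hval : ∀ s, v s (τ (τ J)) = (E : ℤ) ^ 2 * v s J := by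
      intro s
      rw [hσ s _ hτJ0, hσ (σ s) _ hJ0, perm_sq hc2 σ s]
      ring
    have hpow0 : (J⁻¹) ^ (E ^ 2) ≠ 0 := pow_ne_zero _ (inv_ne_zero hJ0)
    obtain ⟨c, hc⟩ := hconst (τ (τ J) * (J⁻¹) ^ (E ^ 2))
      (R.mul_mem (hτ _ (hτ _ hJ)) (R.pow_mem hinvR _)) (mul_ne_zero hττJ0 hpow0) (by
        intro s
        rw [hVs.mul s _ _ hττJ0 hpow0, vs_pow hVs s (inv_ne_zero hJ0), vs_inv hVs s hJ0, hval s]
        push_cast
        exact le_of_eq (by ring))
    refine ⟨c, ?_⟩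
    rw [← hc, mul_assoc, inv_pow, inv_mul_cancel₀ (pow_ne_zero _ hJ0), mul_one]

end Pool.Agent.H59.FFM
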